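import Mathlib
set_option autoImplicit false
namespace Pool.Agent.Q106.IG

open Finset

/-- bit strings of length at most `b` -/
abbrev Lab (b : ℕ) : Type := (i : Fin (b + 1)) × List.Vector Bool i

theorem card_lab (b : ℕ) : Fintype.card (Lab b) ≤ 2 ^ (b + 1) := by
  rw [Fintype.card_sigma]
  have h1 : ∀ i : Fin (b + 1), Fintype.card (List.Vector Bool (i : ℕ)) = 2 ^ (i : ℕ) := by
    intro i
    rw [card_vector, Fintype.card_bool]
  rw [Finset.sum_congr rfl (fun i _ => h1 i), Fin.sum_univ_eq_sum_range (fun i => 2 ^ i) (b + 1)]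
  exact (Nat.geomSum_lt (by norm_num) (fun i hi => Finset.mem_range.1 hi)).le

/-- the decoding of a labelling -/
def graphOf {n b : ℕ} (D : Lab b → Lab b → Bool) (ℓ : Fin n → Lab b) : SimpleGraph (Fin n) :=
  SimpleGraph.fromRel fun u v => D (ℓ u) (ℓ v) = true

theorem exists_tuple {n b : ℕ} (H : SimpleGraph (Fin n)) (hn : 2 ≤ n)
    (he : (b + 2) * n ≤ H.edgeSet.ncard) :
    ∃ g : Fin (4 ^ (b + 1)) → SimpleGraph (Fin n), (∀ i, g i ≤ H) ∧
      ∀ A : List Bool → List Bool → Bool, ∃ i, ∀ ℓ : Fin n → List Bool,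
        (∀ u v, u ≠ v → ((g i).Adj u v ↔ A (ℓ u) (ℓ v) = true)) → ∃ v, b < (ℓ v).length := by
  classical
  by_contra hcon
  push Not at hcon
  set m := 4 ^ (b + 1) with hm
  have hfin : H.edgeSet.Finite := Set.toFinite _
  set E : Finset (Sym2 (Fin n)) := hfin.toFinset with hE
  have hEc : (b + 2) * n ≤ E.card := by rwa [Set.ncard_eq_toFinset_card _ hfin] at he
  have hkey : ∀ h : Fin m → {x // x ∈ E.powerset}, ∃ p : (Lab b → Lab b → Bool) × (Fin m → Fin n → Lab b),
      ∀ i, graphOf p.1 (p.2 i) = SimpleGraph.fromEdgeSet ((h i).1 : Set (Sym2 (Fin n))) := by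
    intro h
    obtain ⟨A, hA⟩ := hcon (fun i => SimpleGraph.fromEdgeSet ((h i).1 : Set (Sym2 (Fin n)))) (by
      intro i u v huv
      rw [SimpleGraph.fromEdgeSet_adj] at huv
      have h1 := Finset.mem_powerset.1 (h i).2 (by exact_mod_cast huv.1)
      rw [hE, Set.Finite.mem_toFinset, SimpleGraph.mem_edgeSet] at h1
      exact h1)
    choose ℓ hℓ1 hℓ2 using hA
    refine ⟨⟨fun x y => A x.2.toList y.2.toList,
      fun i v => ⟨⟨(ℓ i v).length, by have := hℓ2 i v; omega⟩, ⟨ℓ i v, rfl⟩⟩⟩, fun i => ?_⟩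
    ext u v
    unfold graphOf
    rw [SimpleGraph.fromRel_adj]
    by_cases huv : u = v
    · subst huv
      simp
    · have h1 := hℓ1 i u v huv
      have h2 := hℓ1 i v u (Ne.symm huv)
      rw [SimpleGraph.adj_comm] at h2
      simp only [List.Vector.toList_mk]
      rw [h1, ← h2, ← h1]
      simp [huv]
  choose Ψ hΨ using hkey
  have hinj : Function.Injective Ψ := by
    intro h h' hh
    funext i
    have h1 := hΨ h i
    have h2 := hΨ h' i
    rw [← hh, h1] at h2
    have h3 := congrArg SimpleGraph.edgeSet h2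
    rw [SimpleGraph.edgeSet_fromEdgeSet, SimpleGraph.edgeSet_fromEdgeSet] at h3
    have h4 : ∀ j : {x // x ∈ E.powerset}, ((j.1 : Set (Sym2 (Fin n))) \ Sym2.diagSet) = (j.1 : Set (Sym2 (Fin n))) := by
      intro j
      ext e
      simp only [Set.mem_sdiff, Finset.mem_coe]
      constructor
      · exact fun h => h.1
      · intro hej
        refine ⟨hej, ?_⟩
        have := Finset.mem_powerset.1 j.2 hej
        rw [hE, Set.Finite.mem_toFinset] at this
        intro hd
        exact SimpleGraph.not_isDiag_of_mem_edgeSet _ this (by simpa using hd)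
    rw [h4, h4] at h3
    exact Subtype.ext (by exact_mod_cast h3)
  have hcard := Fintype.card_le_of_injective Ψ hinj
  rw [Fintype.card_fun, Fintype.card_coe, Finset.card_powerset, Fintype.card_fin, Fintype.card_prod,
    Fintype.card_fun, Fintype.card_fun, Fintype.card_fun, Fintype.card_fun, Fintype.card_fin,
    Fintype.card_fin, Fintype.card_bool] at hcard
  have hL := card_lab b
  set L := Fintype.card (Lab b)
  have h1 : (2 ^ L) ^ L ≤ 2 ^ m := by
    rw [← pow_mul]
    apply Nat.pow_le_pow_right (by norm_num)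
    calc L * L ≤ 2 ^ (b + 1) * 2 ^ (b + 1) := Nat.mul_le_mul hL hL
      _ = m := by rw [hm, ← mul_pow]; norm_num
  have h2 : (L ^ n) ^ m ≤ 2 ^ ((b + 1) * n * m) := by
    rw [pow_mul, pow_mul]
    exact Nat.pow_le_pow_left (Nat.pow_le_pow_left hL n) m
  have h3 : 2 ^ ((b + 2) * n * m) ≤ (2 ^ E.card) ^ m := by
    rw [pow_mul]
    exact Nat.pow_le_pow_left (Nat.pow_le_pow_right (by norm_num) hEc) m
  have h4 : 2 ^ ((b + 2) * n * m) ≤ 2 ^ (m + (b + 1) * n * m) := by
    calc 2 ^ ((b + 2) * n * m) ≤ (2 ^ E.card) ^ m := h3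
      _ ≤ (2 ^ L) ^ L * (L ^ n) ^ m := hcard
      _ ≤ 2 ^ m * 2 ^ ((b + 1) * n * m) := Nat.mul_le_mul h1 h2
      _ = _ := by rw [← pow_add]
  have h5 := (Nat.pow_le_pow_iff_right (by norm_num : 1 < 2)).1 h4
  have hm0 : 0 < m := by rw [hm]; positivity
  have h6 : (b + 2) * n * m = n * m + (b + 1) * n * m := by ring
  have h7 : 2 * m ≤ n * m := Nat.mul_le_mul_right m hn
  omega

end Pool.Agent.Q106.IG
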