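import Mathlib
set_option autoImplicit false
namespace Pool.Agent.Q106.IG

open Finset

theorem count_zero {X : Type} [Fintype X] [DecidableEq X] (q : ℕ) [NeZero q] (T : Finset X) :
    (((univ : Finset (X → Fin q)).filter fun ω => ∀ x ∈ T, ω x = 0).card : ℝ) =
      (q : ℝ) ^ Fintype.card X * (1 / (q : ℝ)) ^ T.card := by
  have hq : (q : ℝ) ≠ 0 := by exact_mod_cast NeZero.ne q
  have h1 : ((univ : Finset (X → Fin q)).filter fun ω => ∀ x ∈ T, ω x = 0) =
      Fintype.piFinset (fun x => if x ∈ T then ({0} : Finset (Fin q)) else univ) := by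
    ext ω
    simp only [mem_filter, mem_univ, true_and, Fintype.mem_piFinset]
    constructor
    · intro h x
      by_cases hx : x ∈ T
      · simp [hx, h x hx]
      · simp [hx]
    · intro h x hx
      have := h x
      simpa [hx] using this
  rw [h1, Fintype.card_piFinset]
  push_cast
  have h2 : ∀ x : X, (((if x ∈ T then ({0} : Finset (Fin q)) else univ).card : ℕ) : ℝ) =
      (q : ℝ) * (if x ∈ T then 1 / (q : ℝ) else 1) := by
    intro x
    by_cases hx : x ∈ T
    · simp [hx, hq]
    · simp [hx]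
  rw [Finset.prod_congr rfl (fun x _ => h2 x), Finset.prod_mul_distrib, Finset.prod_const,
    Finset.prod_ite_mem, Finset.prod_const]
  simp [Finset.card_univ]

theorem first_moment {X ι : Type} [Fintype X] [DecidableEq X] (q : ℕ) (hq : 0 < q)
    (Y : Finset X) (I : Finset ι) (T : ι → Finset X) (R : ℝ) (hR : 0 < R)
    (h : R ≤ Y.card * (1 / (q:ℝ) - ∑ i ∈ I, (1 / (q:ℝ)) ^ (T i).card)) :
    ∃ E ⊆ Y, R ≤ E.card ∧ ∀ i ∈ I, ¬ T i ⊆ E := by
  classical
  have : NeZero q := ⟨by omega⟩
  have hq0 : (0 : ℝ) < q := by exact_mod_cast hq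
  set N := Fintype.card X
  -- total
  have hsum : ∑ ω : X → Fin q, (((Y.filter fun x => ω x = 0).card : ℝ) -
      Y.card * ((I.filter fun i => ∀ x ∈ T i, ω x = 0).card : ℝ)) =
      (q : ℝ) ^ N * (Y.card * (1 / (q:ℝ) - ∑ i ∈ I, (1 / (q:ℝ)) ^ (T i).card)) := by
    rw [Finset.sum_sub_distrib, ← Finset.mul_sum]
    have e1 : ∑ ω : X → Fin q, ((Y.filter fun x => ω x = 0).card : ℝ) =
        Y.card * ((q : ℝ) ^ N * (1 / (q : ℝ))) := by
      have : ∀ ω : X → Fin q, ((Y.filter fun x => ω x = 0).card : ℝ) =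
          ∑ x ∈ Y, if ω x = 0 then (1 : ℝ) else 0 := by
        intro ω
        simp
      simp_rw [this]
      rw [Finset.sum_comm]
      have : ∀ x ∈ Y, ∑ ω : X → Fin q, (if ω x = 0 then (1 : ℝ) else 0) =
          (q : ℝ) ^ N * (1 / (q : ℝ)) := by
        intro x _
        have h2 := count_zero (X := X) q {x}
        simp only [mem_singleton, forall_eq, card_singleton, pow_one] at h2
        rw [← h2]
        simp
      rw [Finset.sum_congr rfl this, Finset.sum_const, nsmul_eq_mul]
    have e2 : ∑ ω : X → Fin q, ((I.filter fun i => ∀ x ∈ T i, ω x = 0).card : ℝ) =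
        ∑ i ∈ I, (q : ℝ) ^ N * (1 / (q : ℝ)) ^ (T i).card := by
      have : ∀ ω : X → Fin q, ((I.filter fun i => ∀ x ∈ T i, ω x = 0).card : ℝ) =
          ∑ i ∈ I, if ∀ x ∈ T i, ω x = 0 then (1 : ℝ) else 0 := by
        intro ω
        simp
      simp_rw [this]
      rw [Finset.sum_comm]
      refine Finset.sum_congr rfl fun i _ => ?_
      rw [← count_zero (X := X) q (T i)]
      simp
    rw [e1, e2, ← Finset.mul_sum]
    ring
  have hne : (univ : Finset (X → Fin q)).Nonempty := ⟨fun _ => 0, mem_univ _⟩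
  have hcard : ((univ : Finset (X → Fin q)).card : ℝ) = (q : ℝ) ^ N := by
    rw [Finset.card_univ, Fintype.card_fun, Fintype.card_fin]; push_cast; rfl
  obtain ⟨ω, -, hω⟩ := Finset.exists_le_of_sum_le hne (f := fun _ : X → Fin q => R)
    (g := fun ω : X → Fin q => (((Y.filter fun x => ω x = 0).card : ℝ) -
      Y.card * ((I.filter fun i => ∀ x ∈ T i, ω x = 0).card : ℝ))) (by
      rw [hsum, Finset.sum_const, nsmul_eq_mul, hcard]
      exact mul_le_mul_of_nonneg_left h (by positivity))

  have hYle : ((Y.filter fun x => ω x = 0).card : ℝ) ≤ Y.card := by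
    exact_mod_cast Finset.card_filter_le _ _
  have hY0 : (0 : ℝ) ≤ (Y.card : ℝ) := by positivity
  have hzero : (I.filter fun i => ∀ x ∈ T i, ω x = 0).card = 0 := by
    by_contra hne0
    have h1 : (1 : ℝ) ≤ ((I.filter fun i => ∀ x ∈ T i, ω x = 0).card : ℝ) := by
      exact_mod_cast Nat.one_le_iff_ne_zero.2 hne0
    nlinarith
  refine ⟨Y.filter fun x => ω x = 0, filter_subset _ _, ?_, fun i hi hsub => ?_⟩
  · rw [hzero] at hω
    simpa using hω
  · have : i ∈ (I.filter fun i => ∀ x ∈ T i, ω x = 0) := by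
      rw [mem_filter]
      exact ⟨hi, fun x hx => (mem_filter.1 (hsub hx)).2⟩
    rw [Finset.card_eq_zero] at hzero
    rw [hzero] at this
    simp at this

end Pool.Agent.Q106.IG
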