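import Mathlib
import Pool.Agent.Q106.IG.FirstMoment
set_option autoImplicit false
namespace Pool.Agent.Q106.IG

open Finset

/-- `C(k choose 2, M) (1/q)^M n^k ≤ (n (3k/(qt))^t)^k` -/
theorem term_bound (n k t q : ℕ) (hk : 1 ≤ k) (ht : 1 ≤ t) (hq : 0 < q) :
    ((n : ℝ) ^ k) * ((k.choose 2).choose (t * k) : ℝ) * (1 / (q : ℝ)) ^ (t * k) ≤
      ((n : ℝ) * (3 * k / (q * t)) ^ t) ^ k := by
  have hq0 : (0 : ℝ) < q := by exact_mod_cast hq
  have ht0 : (0 : ℝ) < t := by exact_mod_cast ht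
  have hk0 : (0 : ℝ) < k := by exact_mod_cast hk
  set M := t * k with hM
  have hM0 : (0 : ℝ) < M := by rw [hM]; push_cast; positivity
  have hfac : (0 : ℝ) < (M.factorial : ℝ) := by exact_mod_cast M.factorial_pos
  have h1 : ((k.choose 2).choose M : ℝ) ≤ ((k : ℝ) ^ 2) ^ M / M.factorial := by
    have h2 := Nat.choose_le_pow_div M (k.choose 2) (α := ℝ)
    refine h2.trans ?_
    gcongr
    have : k.choose 2 ≤ k ^ 2 := Nat.choose_le_pow k 2
    exact_mod_cast this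
  have h3 : (M : ℝ) ^ M / M.factorial ≤ 3 ^ M := by
    have h4 := Real.pow_div_factorial_le_exp (M : ℝ) hM0.le M
    refine h4.trans ?_
    have h5 : Real.exp (M : ℝ) = Real.exp 1 ^ M := by
      rw [← Real.exp_nat_mul, mul_one]
    rw [h5]
    exact pow_le_pow_left₀ (Real.exp_pos _).le Real.exp_one_lt_three.le _
  have h6 : ((k : ℝ) ^ 2) ^ M / M.factorial ≤ (3 * k ^ 2 / M) ^ M := by
    have : ((k : ℝ) ^ 2) ^ M / M.factorial = ((k : ℝ) ^ 2 / M) ^ M * ((M : ℝ) ^ M / M.factorial) := by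
      rw [div_pow]
      field_simp
    rw [this]
    calc ((k : ℝ) ^ 2 / M) ^ M * ((M : ℝ) ^ M / M.factorial)
        ≤ ((k : ℝ) ^ 2 / M) ^ M * 3 ^ M := by gcongr
      _ = _ := by rw [← mul_pow]; congr 1; ring
  calc ((n : ℝ) ^ k) * ((k.choose 2).choose M : ℝ) * (1 / (q : ℝ)) ^ M
      ≤ ((n : ℝ) ^ k) * (3 * k ^ 2 / M) ^ M * (1 / (q : ℝ)) ^ M := by
        gcongr
        exact h1.trans h6
    _ = ((n : ℝ) ^ k) * ((3 * k ^ 2 / M) * (1 / q)) ^ M := by rw [mul_assoc, ← mul_pow]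
    _ = ((n : ℝ) ^ k) * (3 * k / (q * t)) ^ M := by
        congr 2
        rw [hM]; push_cast
        field_simp
    _ = _ := by rw [mul_pow, hM, pow_mul]

/-- the parameters -/
def ss (w : ℕ) : ℕ := 2 ^ (24 * 2 ^ w)
def nn (w : ℕ) : ℕ := ss w ^ 2
def bb (w : ℕ) : ℕ := 2 ^ w * ss w
def qq (w : ℕ) : ℕ := 2 ^ (24 * 2 ^ w - w - 3)

theorem qq_spec (w : ℕ) : qq w * (8 * 2 ^ w) = ss w := by
  unfold qq ss
  have h : w < 2 ^ w := Nat.lt_two_pow_self
  have e : (8 : ℕ) * 2 ^ w = 2 ^ (w + 3) := by rw [pow_add]; ring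
  rw [e, ← pow_add]
  congr 1
  omega

theorem qq_pos (w : ℕ) : 0 < qq w := by unfold qq; positivity

def tt (w k : ℕ) : ℕ := if k ^ 2 ≤ ss w then 12 else 96 * 2 ^ w

theorem tt_pos (w k : ℕ) : 1 ≤ tt w k := by
  unfold tt
  split_ifs
  · norm_num
  · have : 1 ≤ 2 ^ w := Nat.one_le_two_pow
    omega

theorem base_bound (w k : ℕ) (hk1 : 1 ≤ k) (hk : k ≤ ss w) :
    (nn w : ℝ) * (3 * k / (qq w * tt w k)) ^ (tt w k) ≤ 1 / (ss w : ℝ) ^ 3 := by
  have hs0 : (0 : ℝ) < ss w := by unfold ss; positivity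
  have hq0 : (0 : ℝ) < qq w := by exact_mod_cast qq_pos w
  have hv0 : (0 : ℝ) < (2 : ℝ) ^ w := by positivity
  have hqs : (qq w : ℝ) * (8 * 2 ^ w) = ss w := by exact_mod_cast qq_spec w
  have hnn : (nn w : ℝ) = (ss w : ℝ) ^ 2 := by unfold nn; push_cast; rfl
  have hv1 : (1 : ℕ) ≤ 2 ^ w := Nat.one_le_two_pow
  rw [hnn, le_div_iff₀ (by positivity)]
  unfold tt
  split_ifs with hks
  · have e1 : (3 * (k : ℝ) / (qq w * ((12 : ℕ) : ℝ))) = 2 * 2 ^ w * k / ss w := by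
      rw [← hqs]; push_cast; field_simp; norm_num
    rw [e1, div_pow]
    have hk6 : (k : ℝ) ^ 12 ≤ (ss w : ℝ) ^ 6 := by
      have : ((k : ℝ) ^ 2) ≤ ss w := by exact_mod_cast hks
      calc (k : ℝ) ^ 12 = ((k : ℝ) ^ 2) ^ 6 := by ring
        _ ≤ (ss w : ℝ) ^ 6 := pow_le_pow_left₀ (by positivity) this 6
    have hv : (2 * (2 : ℝ) ^ w) ^ 12 ≤ ss w := by
      have h1 : (2 * 2 ^ w) ^ 12 ≤ ss w := by
        unfold ss
        have h2 : 2 * 2 ^ w ≤ 2 ^ (2 * 2 ^ w) := by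
          rw [← pow_succ']
          apply Nat.pow_le_pow_right (by norm_num)
          have : w < 2 ^ w := Nat.lt_two_pow_self
          omega
        calc (2 * 2 ^ w) ^ 12 ≤ (2 ^ (2 * 2 ^ w)) ^ 12 := Nat.pow_le_pow_left h2 12
          _ = 2 ^ (24 * 2 ^ w) := by rw [← pow_mul]; congr 1; ring
      exact_mod_cast h1
    have e2 : (2 * (2 : ℝ) ^ w * k) ^ 12 = (2 * (2 : ℝ) ^ w) ^ 12 * (k : ℝ) ^ 12 := by ring
    rw [e2]
    have h3 : (2 * (2 : ℝ) ^ w) ^ 12 * (k : ℝ) ^ 12 ≤ (ss w : ℝ) * (ss w : ℝ) ^ 6 := by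
      gcongr
    calc (ss w : ℝ) ^ 2 * ((2 * (2 : ℝ) ^ w) ^ 12 * (k : ℝ) ^ 12 / (ss w : ℝ) ^ 12) * (ss w : ℝ) ^ 3
        ≤ (ss w : ℝ) ^ 2 * (((ss w : ℝ) * (ss w : ℝ) ^ 6) / (ss w : ℝ) ^ 12) * (ss w : ℝ) ^ 3 := by
          gcongr
      _ = 1 := by field_simp
  · have e1 : (3 * (k : ℝ) / (qq w * ((96 * 2 ^ w : ℕ) : ℝ))) = k / ss w / 4 := by
      rw [← hqs]; push_cast; field_simp; norm_num
    have hk4 : (k : ℝ) / ss w ≤ 1 := by
      rw [div_le_one hs0]; exact_mod_cast hk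
    rw [e1]
    have h1 : ((k : ℝ) / ss w / 4) ^ (96 * 2 ^ w) ≤ (1 / 4 : ℝ) ^ (96 * 2 ^ w) := by
      apply pow_le_pow_left₀ (by positivity)
      linarith
    have h2 : (1 / 4 : ℝ) ^ (96 * 2 ^ w) = 1 / (ss w : ℝ) ^ 8 := by
      have : ((ss w : ℕ) : ℝ) = (2 : ℝ) ^ (24 * 2 ^ w) := by unfold ss; push_cast; rfl
      rw [this, one_div, inv_pow, one_div, ← pow_mul]
      congr 1
      have : (4 : ℝ) = 2 ^ 2 := by norm_num
      rw [this, ← pow_mul]
      congr 1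
      ring
    have hs1 : (1 : ℝ) ≤ ss w := by
      have : 1 ≤ ss w := Nat.one_le_two_pow
      exact_mod_cast this
    calc (ss w : ℝ) ^ 2 * ((k : ℝ) / ss w / 4) ^ (96 * 2 ^ w) * (ss w : ℝ) ^ 3
        ≤ (ss w : ℝ) ^ 2 * (1 / (ss w : ℝ) ^ 8) * (ss w : ℝ) ^ 3 := by
          rw [← h2]; gcongr
      _ = 1 / (ss w : ℝ) ^ 3 := by field_simp
      _ ≤ 1 := by
          rw [div_le_one (by positivity)]
          exact one_le_pow₀ hs1

theorem ss_large (w : ℕ) : 2 ^ 24 ≤ ss w := by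
  unfold ss
  apply Nat.pow_le_pow_right (by norm_num)
  have : 1 ≤ 2 ^ w := Nat.one_le_two_pow
  omega

theorem host (w : ℕ) : ∃ H : SimpleGraph (Fin (nn w)),
    (bb w + 2) * nn w ≤ H.edgeSet.ncard ∧
    ∀ k, 1 ≤ k → k ≤ ss w → ∀ f : Fin k ↪ Fin (nn w), (H.comap f).edgeSet.ncard < tt w k * k := by
  classical
  set n := nn w with hn
  set s := ss w with hs
  set I : Finset ((k : ℕ) × ((Fin k ↪ Fin n) × Finset (Sym2 (Fin k)))) :=
    (Finset.Icc 1 s).sigma fun k => (univ : Finset (Fin k ↪ Fin n)) ×ˢ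
      (powersetCard (tt w k * k) (⊤ : SimpleGraph (Fin k)).edgeFinset) with hI
  set T : ((k : ℕ) × ((Fin k ↪ Fin n) × Finset (Sym2 (Fin k)))) → Finset (Sym2 (Fin n)) :=
    fun i => i.2.2.image (Sym2.map i.2.1) with hT
  have hs0 : (0 : ℝ) < s := by rw [hs]; unfold ss; positivity
  have hslarge : (2 : ℝ) ^ 24 ≤ s := by exact_mod_cast ss_large w
  have hsum : ∑ i ∈ I, (1 / (qq w : ℝ)) ^ (T i).card ≤ 1 / (s : ℝ) ^ 2 := by
    rw [hI, Finset.sum_sigma]
    have h1 : ∀ k ∈ Finset.Icc 1 s, ∑ p ∈ (univ : Finset (Fin k ↪ Fin n)) ×ˢ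
        (powersetCard (tt w k * k) (⊤ : SimpleGraph (Fin k)).edgeFinset),
        (1 / (qq w : ℝ)) ^ (T ⟨k, p⟩).card ≤ 1 / (s : ℝ) ^ 3 := by
      intro k hk
      rw [mem_Icc] at hk
      have h2 : ∀ p ∈ (univ : Finset (Fin k ↪ Fin n)) ×ˢ
          (powersetCard (tt w k * k) (⊤ : SimpleGraph (Fin k)).edgeFinset),
          (1 / (qq w : ℝ)) ^ (T ⟨k, p⟩).card = (1 / (qq w : ℝ)) ^ (tt w k * k) := by
        intro p hp
        rw [mem_product, mem_powersetCard] at hp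
        congr 1
        rw [hT]
        simp only
        rw [card_image_of_injective _ (Sym2.map.injective p.1.injective), hp.2.2]
      rw [Finset.sum_congr rfl h2, Finset.sum_const, nsmul_eq_mul, card_product, card_powersetCard,
        SimpleGraph.card_edgeFinset_top_eq_card_choose_two, Fintype.card_fin, Finset.card_univ,
        Fintype.card_embedding_eq, Fintype.card_fin, Fintype.card_fin]
      have h3 : ((n.descFactorial k : ℕ) : ℝ) ≤ (n : ℝ) ^ k := by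
        exact_mod_cast Nat.descFactorial_le_pow n k
      have hqp : (0 : ℝ) < qq w := by exact_mod_cast qq_pos w
      push_cast
      calc ((n.descFactorial k : ℕ) : ℝ) * ((k.choose 2).choose (tt w k * k) : ℝ) *
            (1 / (qq w : ℝ)) ^ (tt w k * k)
          ≤ (n : ℝ) ^ k * ((k.choose 2).choose (tt w k * k) : ℝ) *
            (1 / (qq w : ℝ)) ^ (tt w k * k) := by gcongr
        _ ≤ ((n : ℝ) * (3 * k / (qq w * tt w k)) ^ tt w k) ^ k :=
            term_bound n k (tt w k) (qq w) hk.1 (tt_pos w k) (qq_pos w)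
        _ ≤ (1 / (s : ℝ) ^ 3) ^ k := by
            apply pow_le_pow_left₀ (by positivity)
            exact base_bound w k hk.1 hk.2
        _ ≤ (1 / (s : ℝ) ^ 3) ^ 1 := by
            apply pow_le_pow_of_le_one (by positivity) _ hk.1
            rw [div_le_one (by positivity)]
            exact one_le_pow₀ (by linarith [show (1 : ℝ) ≤ 2 ^ 24 by norm_num])
        _ = _ := pow_one _
    refine (Finset.sum_le_sum h1).trans ?_
    rw [Finset.sum_const, nsmul_eq_mul, Nat.card_Icc]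
    simp only [Nat.add_sub_cancel]
    apply le_of_eq
    field_simp
  have hYc : ((⊤ : SimpleGraph (Fin n)).edgeFinset.card : ℝ) = (s : ℝ) ^ 2 * ((s : ℝ) ^ 2 - 1) / 2 := by
    rw [SimpleGraph.card_edgeFinset_top_eq_card_choose_two, Fintype.card_fin, Nat.cast_choose_two]
    have : ((n : ℕ) : ℝ) = (s : ℝ) ^ 2 := by rw [hn, hs]; unfold nn; push_cast; rfl
    rw [this]
  have hv0 : (1 : ℝ) ≤ (2 : ℝ) ^ w := one_le_pow₀ (by norm_num)
  have hqs : (1 : ℝ) / (qq w : ℝ) = 8 * 2 ^ w / s := by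
    have h1 : (qq w : ℝ) * (8 * 2 ^ w) = s := by rw [hs]; exact_mod_cast qq_spec w
    have hqp : (0 : ℝ) < qq w := by exact_mod_cast qq_pos w
    rw [← h1]; field_simp
  have hbn : (((bb w + 2) * nn w : ℕ) : ℝ) = (2 ^ w * s + 2) * (s : ℝ) ^ 2 := by
    rw [hs]; unfold bb nn; push_cast; ring
  obtain ⟨E, hEY, hE, hET⟩ := first_moment (qq w) (qq_pos w) (⊤ : SimpleGraph (Fin n)).edgeFinset
    I T (((bb w + 2) * nn w : ℕ) : ℝ) (by rw [hbn]; positivity) (by
      have h1 : (((bb w + 2) * nn w : ℕ) : ℝ) ≤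
          (⊤ : SimpleGraph (Fin n)).edgeFinset.card * (1 / (qq w : ℝ) - 1 / (s : ℝ) ^ 2) := by
        rw [hbn, hYc, hqs]
        have h2 : 8 * (2 : ℝ) ^ w / s - 1 / (s : ℝ) ^ 2 ≥ 7 * 2 ^ w / s := by
          have : 1 / (s : ℝ) ^ 2 ≤ 2 ^ w / s := by
            rw [div_le_div_iff₀ (by positivity) (by positivity)]
            nlinarith
          have e : 8 * (2 : ℝ) ^ w / s = 7 * 2 ^ w / s + 2 ^ w / s := by ring
          rw [e]; linarith
        have h3 : (0 : ℝ) ≤ (s : ℝ) ^ 2 * ((s : ℝ) ^ 2 - 1) / 2 := by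
          have : (1 : ℝ) ≤ (s : ℝ) ^ 2 := one_le_pow₀ (by linarith [show (1 : ℝ) ≤ 2 ^ 24 by norm_num])
          have : (0 : ℝ) ≤ (s : ℝ) ^ 2 - 1 := by linarith
          positivity
        refine le_trans ?_ (mul_le_mul_of_nonneg_left h2 h3)
        have e : (s : ℝ) ^ 2 * ((s : ℝ) ^ 2 - 1) / 2 * (7 * 2 ^ w / s) =
            (s : ℝ) ^ 2 * (7 / 2 * 2 ^ w * (s - 1 / s)) := by
          field_simp
        rw [e, mul_comm ((2 : ℝ) ^ w * s + 2)]
        apply mul_le_mul_of_nonneg_left _ (by positivity)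
        have h4 : (1 : ℝ) / s ≤ 1 := by
          rw [div_le_one hs0]; linarith [show (1 : ℝ) ≤ 2 ^ 24 by norm_num]
        nlinarith [mul_nonneg (sub_nonneg.2 hv0) (sub_nonneg.2 hslarge)]
      refine h1.trans ?_
      apply mul_le_mul_of_nonneg_left _ (by positivity)
      linarith)
  refine ⟨SimpleGraph.fromEdgeSet (E : Set (Sym2 (Fin n))), ?_, ?_⟩
  · have h1 : (SimpleGraph.fromEdgeSet (E : Set (Sym2 (Fin n)))).edgeSet = (E : Set (Sym2 (Fin n))) := by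
      rw [SimpleGraph.edgeSet_fromEdgeSet]
      ext e
      simp only [Set.mem_sdiff, Finset.mem_coe]
      constructor
      · exact fun h => h.1
      · intro h
        refine ⟨h, ?_⟩
        have := hEY h
        rw [SimpleGraph.mem_edgeFinset] at this
        exact SimpleGraph.not_isDiag_of_mem_edgeSet _ this
    rw [h1, Set.ncard_coe_finset]
    exact_mod_cast hE
  · intro k hk1 hk f
    by_contra hcon
    push Not at hcon
    have hfin : ((SimpleGraph.fromEdgeSet (E : Set (Sym2 (Fin n)))).comap f).edgeSet.Finite :=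
      Set.toFinite _
    rw [Set.ncard_eq_toFinset_card _ hfin] at hcon
    obtain ⟨T', hT'1, hT'2⟩ := Finset.exists_subset_card_eq hcon
    have hmem : (⟨k, (f, T')⟩ : (k : ℕ) × ((Fin k ↪ Fin n) × Finset (Sym2 (Fin k)))) ∈ I := by
      rw [hI, mem_sigma]
      refine ⟨mem_Icc.2 ⟨hk1, hk⟩, ?_⟩
      rw [mem_product, mem_powersetCard]
      refine ⟨mem_univ _, fun e he => ?_, hT'2⟩
      have h1 := hT'1 he
      rw [Set.Finite.mem_toFinset] at h1
      rw [SimpleGraph.mem_edgeFinset, SimpleGraph.edgeSet_top]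
      exact SimpleGraph.not_isDiag_of_mem_edgeSet _ h1
    refine hET _ hmem ?_
    intro e he
    rw [hT] at he
    simp only [mem_image] at he
    obtain ⟨e', he', rfl⟩ := he
    have h1 := hT'1 he'
    rw [Set.Finite.mem_toFinset] at h1
    induction e' using Sym2.ind with
    | _ a b =>
      rw [SimpleGraph.mem_edgeSet, SimpleGraph.comap_adj, SimpleGraph.fromEdgeSet_adj] at h1
      rw [Sym2.map_mk]
      exact_mod_cast h1.1

end Pool.Agent.Q106.IG
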