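import Mathlib
import Pool.Agent.Q106.IG.Host
import Pool.Agent.Q106.IG.Decoders
set_option autoImplicit false
namespace Pool.Agent.Q106.IG

open Finset

theorem card_small_sets {α : Type} [Fintype α] [DecidableEq α] (t : ℕ) :
    ((univ : Finset (Finset α)).filter fun S => S.card ≤ t).card ≤ (Fintype.card α + 1) ^ t := by
  classical
  have h1 : ((univ : Finset (Finset α)).filter fun S => S.card ≤ t) ⊆
      (univ : Finset (Fin t → Option α)).image
        (fun u => univ.filter fun a => ∃ i, u i = some a) := by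
    intro S hS
    rw [mem_filter] at hS
    rw [mem_image]
    refine ⟨fun i => if h : (i : ℕ) < S.card then some (S.equivFin.symm ⟨i, h⟩).1 else none,
      mem_univ _, ?_⟩
    ext a
    simp only [mem_filter, mem_univ, true_and]
    constructor
    · rintro ⟨i, hi⟩
      split_ifs at hi with h
      · rw [Option.some.injEq] at hi
        rw [← hi]
        exact (S.equivFin.symm ⟨i, h⟩).2
    · intro ha
      have hlt : ((S.equivFin ⟨a, ha⟩ : Fin S.card) : ℕ) < t := lt_of_lt_of_le (Fin.is_lt _) hS.2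
      refine ⟨⟨(S.equivFin ⟨a, ha⟩ : Fin S.card), hlt⟩, ?_⟩
      simp
  refine (card_le_card h1).trans (card_image_le.trans ?_)
  rw [Finset.card_univ, Fintype.card_fun, Fintype.card_option, Fintype.card_fin]

theorem sparse_count (k t : ℕ) :
    {G : SimpleGraph (Fin k) | G.edgeSet.ncard ≤ t}.ncard ≤ (k ^ 2 + 1) ^ t := by
  classical
  have h1 : {G : SimpleGraph (Fin k) | G.edgeSet.ncard ≤ t}.ncard ≤
      (((univ : Finset (Finset (Sym2 (Fin k)))).filter fun S => S.card ≤ t : Finset _) :
        Set (Finset (Sym2 (Fin k)))).ncard := by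
    apply Set.ncard_le_ncard_of_injOn (fun G : SimpleGraph (Fin k) => G.edgeSet.toFinite.toFinset)
    · intro G hG
      simp only [Finset.coe_filter, mem_univ, true_and, Set.mem_ofPred_eq]
      rwa [Set.mem_ofPred_eq, Set.ncard_eq_toFinset_card _ G.edgeSet.toFinite] at hG
    · intro G _ G' _ h
      exact SimpleGraph.edgeSet_injective (Set.Finite.toFinset_inj.1 h)
  refine h1.trans ?_
  rw [Set.ncard_coe_finset]
  refine (card_small_sets t).trans (Nat.pow_le_pow_left ?_ t)
  rw [Sym2.card, Fintype.card_fin]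
  have : (k + 1).choose 2 ≤ k ^ 2 := by
    rw [Nat.choose_two_right]
    simp only [Nat.add_sub_cancel]
    apply Nat.div_le_of_le_mul
    rcases Nat.eq_zero_or_pos k with h | h
    · subst h; simp
    · nlinarith
  omega

theorem sub_count {k : ℕ} (H : SimpleGraph (Fin k)) :
    {G : SimpleGraph (Fin k) | G ≤ H}.ncard ≤ 2 ^ H.edgeSet.ncard := by
  classical
  have h1 : {G : SimpleGraph (Fin k) | G ≤ H}.ncard ≤
      ((H.edgeSet.toFinite.toFinset.powerset : Finset (Finset (Sym2 (Fin k)))) :
        Set (Finset (Sym2 (Fin k)))).ncard := by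
    apply Set.ncard_le_ncard_of_injOn (fun G : SimpleGraph (Fin k) => G.edgeSet.toFinite.toFinset)
    · intro G hG
      rw [Finset.mem_coe, Finset.mem_powerset]
      intro e he
      rw [Set.Finite.mem_toFinset] at he ⊢
      exact SimpleGraph.edgeSet_mono hG he
    · intro G _ G' _ h
      exact SimpleGraph.edgeSet_injective (Set.Finite.toFinset_inj.1 h)
  refine h1.trans ?_
  rw [Set.ncard_coe_finset, Finset.card_powerset, Set.ncard_eq_toFinset_card _ H.edgeSet.toFinite]

theorem nn_eq (w : ℕ) : nn w = 2 ^ (48 * 2 ^ w) := by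
  unfold nn ss
  rw [← pow_mul]
  congr 1
  ring

theorem tt_le (w k : ℕ) : tt w k ≤ 96 * 2 ^ w := by
  unfold tt
  split_ifs
  · have : 1 ≤ 2 ^ w := Nat.one_le_two_pow
    omega
  · exact le_rfl

theorem q_count (w k : ℕ) (hk : 1 ≤ k) (H : SimpleGraph (Fin (nn w)))
    (hH : ∀ k, 1 ≤ k → k ≤ ss w → ∀ f : Fin k ↪ Fin (nn w), (H.comap f).edgeSet.ncard < tt w k * k)
    (g : Fin (4 ^ (bb w + 1)) → SimpleGraph (Fin (nn w))) (hg : ∀ i, g i ≤ H) :
    {G : SimpleGraph (Fin k) | ∃ i, ∃ f : Fin k ↪ Fin (nn w), G = (g i).comap f}.ncard ≤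
      nn w ^ (3 * k) := by
  classical
  have hemb : Fintype.card (Fin k ↪ Fin (nn w)) ≤ nn w ^ k := by
    rw [Fintype.card_embedding_eq, Fintype.card_fin, Fintype.card_fin]
    exact Nat.descFactorial_le_pow _ _
  by_cases hks : k ≤ ss w
  · set U : Finset (SimpleGraph (Fin k)) := (univ : Finset (Fin k ↪ Fin (nn w))).biUnion fun f =>
      (Set.toFinite {G : SimpleGraph (Fin k) | G ≤ H.comap f}).toFinset with hU
    have h1 : {G : SimpleGraph (Fin k) | ∃ i, ∃ f : Fin k ↪ Fin (nn w), G = (g i).comap f} ⊆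
        (U : Set (SimpleGraph (Fin k))) := by
      rintro G ⟨i, f, rfl⟩
      rw [hU, Finset.mem_coe, mem_biUnion]
      refine ⟨f, mem_univ _, ?_⟩
      rw [Set.Finite.mem_toFinset]
      exact SimpleGraph.comap_monotone f (hg i)
    refine (Set.ncard_le_ncard h1 (Set.toFinite _)).trans ?_
    rw [Set.ncard_coe_finset]
    have h2 : U.card ≤ (univ : Finset (Fin k ↪ Fin (nn w))).card * 2 ^ (96 * 2 ^ w * k) := by
      apply card_biUnion_le_card_mul
      intro f _
      rw [← Set.ncard_eq_toFinset_card]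
      refine (sub_count _).trans (Nat.pow_le_pow_right (by norm_num) ?_)
      refine (hH k hk hks f).le.trans ?_
      exact Nat.mul_le_mul_right k (tt_le w k)
    refine h2.trans ?_
    rw [Finset.card_univ]
    refine (Nat.mul_le_mul_right _ hemb).trans ?_
    rw [nn_eq, ← pow_mul, ← pow_mul, ← pow_add]
    apply Nat.pow_le_pow_right (by norm_num)
    apply le_of_eq
    ring
  · push Not at hks
    have h1 : {G : SimpleGraph (Fin k) | ∃ i, ∃ f : Fin k ↪ Fin (nn w), G = (g i).comap f} ⊆
        (((univ : Finset (Fin (4 ^ (bb w + 1)) × (Fin k ↪ Fin (nn w)))).image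
          (fun p => (g p.1).comap p.2) : Finset (SimpleGraph (Fin k))) : Set (SimpleGraph (Fin k))) := by
      rintro G ⟨i, f, rfl⟩
      rw [Finset.mem_coe, mem_image]
      exact ⟨(i, f), mem_univ _, rfl⟩
    refine (Set.ncard_le_ncard h1 (Set.toFinite _)).trans ?_
    rw [Set.ncard_coe_finset]
    refine card_image_le.trans ?_
    rw [Finset.card_univ, Fintype.card_prod, Fintype.card_fin]
    refine (Nat.mul_le_mul_left _ hemb).trans ?_
    have h4 : (4 : ℕ) ^ (bb w + 1) = 2 ^ (2 * (bb w + 1)) := by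
      rw [pow_mul]; norm_num
    rw [nn_eq, h4, ← pow_mul, ← pow_mul, ← pow_add]
    apply Nat.pow_le_pow_right (by norm_num)
    have h5 : bb w ≤ 2 ^ w * k := Nat.mul_le_mul_left _ hks.le
    have h6 : 1 ≤ 2 ^ w * k := Nat.mul_pos (by positivity) hk
    have e1 : 48 * 2 ^ w * k = 48 * (2 ^ w * k) := by ring
    have e2 : 48 * 2 ^ w * (3 * k) = 144 * (2 ^ w * k) := by ring
    rw [e1, e2]
    omega

end Pool.Agent.Q106.IG
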